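import Pool.Agent.Y142.SS.Stm
import Pool.Agent.Y497.ZO.LogPow

set_option autoImplicit false

/-!
Project Y142-SS, task LOGR: the logarithm of a power of a regular element.
-/

open Matrix Polynomial Filter Topology

namespace Pool.Agent.Y936.SS

open Pool.Agent.Y142.ZO Pool.Agent.Y142.SS Pool.Agent.Y497.ZO
open Pool.Agent.Y142.ZD (DistPow)

section

variable {ℓ : ℕ} [Fact ℓ.Prime] {N : ℕ}

/-- the algebraic closure -/
abbrev Om (ℓ : ℕ) [Fact ℓ.Prime] : Type := AlgebraicClosure ℚ_[ℓ]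

/-- extension of scalars of a matrix -/
noncomputable def ext (A : Matrix (Fin N) (Fin N) ℚ_[ℓ]) : Matrix (Fin N) (Fin N) (Om ℓ) :=
  A.map (algebraMap ℚ_[ℓ] (Om ℓ))

theorem root_iff (A : Matrix (Fin N) (Fin N) ℚ_[ℓ]) (y : Om ℓ) :
    aeval y A.charpoly = 0 ↔ ∃ v : Fin N → Om ℓ, v ≠ 0 ∧ ext A *ᵥ v = y • v := by
  have h1 : aeval y A.charpoly = (ext A).charpoly.eval y := by
    unfold ext
    rw [Matrix.charpoly_map, eval_map_algebraMap]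
  rw [h1, Matrix.eval_charpoly, ← Matrix.exists_mulVec_eq_zero_iff]
  refine exists_congr fun v => and_congr_right fun _ => ?_
  rw [Matrix.sub_mulVec, sub_eq_zero, eq_comm]
  have h2 : (Matrix.scalar (Fin N) y) *ᵥ v = y • v := by
    rw [Matrix.scalar_apply, ← Matrix.smul_one_eq_diagonal, Matrix.smul_mulVec, Matrix.one_mulVec]
  rw [h2]

theorem ext_aeval (A : Matrix (Fin N) (Fin N) ℚ_[ℓ]) (f : ℚ_[ℓ][X]) :
    ext (aeval A f) = aeval (ext A) f :=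
  (Polynomial.aeval_algHom_apply (Algebra.ofId ℚ_[ℓ] (Om ℓ)).mapMatrix A f).symm

theorem eig_pow (A : Matrix (Fin N) (Fin N) (Om ℓ)) (v : Fin N → Om ℓ) (y : Om ℓ)
    (h : A *ᵥ v = y • v) (k : ℕ) : (A ^ k) *ᵥ v = y ^ k • v := by
  induction k with
  | zero => simp
  | succ k ih =>
    rw [pow_succ, ← Matrix.mulVec_mulVec, h, Matrix.mulVec_smul, ih, smul_smul, pow_succ, mul_comm]

theorem eig_aeval (A : Matrix (Fin N) (Fin N) (Om ℓ)) (v : Fin N → Om ℓ) (y : Om ℓ)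
    (h : A *ᵥ v = y • v) (f : ℚ_[ℓ][X]) : (aeval A f) *ᵥ v = (aeval y f) • v := by
  induction f using Polynomial.induction_on' with
  | add p q hp hq => rw [map_add, map_add, Matrix.add_mulVec, hp, hq, add_smul]
  | monomial n a =>
    rw [aeval_monomial, aeval_monomial, ← Algebra.smul_def, ← Algebra.smul_def,
      Matrix.smul_mulVec, eig_pow A v y h n, smul_assoc]

theorem eig_ext (A : Matrix (Fin N) (Fin N) ℚ_[ℓ]) (v : Fin N → Om ℓ) (y : Om ℓ)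
    (h : ext A *ᵥ v = y • v) (f : ℚ_[ℓ][X]) : ext (aeval A f) *ᵥ v = (aeval y f) • v := by
  rw [ext_aeval]
  exact eig_aeval _ v y h f

theorem norm_alg (x : ℚ_[ℓ]) : ‖algebraMap ℚ_[ℓ] (Om ℓ) x‖ = ‖x‖ := PadicAlgCl.norm_extends ℓ x

theorem eig_le (A : Matrix (Fin N) (Fin N) ℚ_[ℓ]) (v : Fin N → Om ℓ) (y : Om ℓ) (hv : v ≠ 0)
    (h : ext A *ᵥ v = y • v) (c : ℝ) (hc : 0 ≤ c) (hA : ∀ i j, ‖A i j‖ ≤ c) : ‖y‖ ≤ c := by
  have h1 : ‖ext A *ᵥ v‖ ≤ c * ‖v‖ := by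
    rw [pi_norm_le_iff_of_nonneg (by positivity)]
    intro i
    rw [Matrix.mulVec, dotProduct]
    refine IsUltrametricDist.norm_sum_le_of_forall_le_of_nonneg (by positivity) fun k _ => ?_
    rw [norm_mul]
    refine mul_le_mul ?_ (norm_le_pi_norm v k) (norm_nonneg _) hc
    unfold ext
    rw [Matrix.map_apply, norm_alg]
    exact hA i k
  rw [h, norm_smul] at h1
  exact le_of_mul_le_mul_right h1 (norm_pos_iff.2 hv)

/-! ### powers near one -/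

theorem mul_near (a b : Om ℓ) (c : ℝ) (hc0 : 0 ≤ c) (hc : c ≤ 1) (ha : ‖a - 1‖ ≤ c)
    (hb : ‖b - 1‖ ≤ c) : ‖a * b - 1‖ ≤ c := by
  have h1 : a * b - 1 = (a - 1) * (b - 1) + ((a - 1) + (b - 1)) := by ring
  rw [h1]
  refine (IsUltrametricDist.norm_add_le_max _ _).trans (max_le ?_
    ((IsUltrametricDist.norm_add_le_max _ _).trans (max_le ha hb)))
  rw [norm_mul]
  calc _ ≤ c * 1 := mul_le_mul ha (hb.trans hc) (norm_nonneg _) hc0
    _ = c := mul_one _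

theorem pow_near (a : Om ℓ) (c : ℝ) (hc0 : 0 ≤ c) (hc : c ≤ 1) (ha : ‖a - 1‖ ≤ c) (k : ℕ) :
    ‖a ^ k - 1‖ ≤ c := by
  induction k with
  | zero => simpa using hc0
  | succ k ih =>
    rw [pow_succ]
    exact mul_near _ _ c hc0 hc ih ha

theorem norm_ell : ‖(ℓ : Om ℓ)‖ = (ℓ : ℝ)⁻¹ := by
  have h1 := norm_alg (ℓ := ℓ) (ℓ : ℚ_[ℓ])
  rw [map_natCast, Padic.norm_p] at h1
  exact h1

theorem pow_sub (X Y : Om ℓ) (hX : ‖X - 1‖ ≤ ((ℓ : ℝ) ^ 2)⁻¹) (hY : ‖Y - 1‖ ≤ ((ℓ : ℝ) ^ 2)⁻¹) :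
    ‖X ^ ℓ - Y ^ ℓ‖ = (ℓ : ℝ)⁻¹ * ‖X - Y‖ := by
  have hl1 : (1 : ℝ) < ℓ := by exact_mod_cast (Fact.out : ℓ.Prime).one_lt
  have hc0 : (0 : ℝ) ≤ ((ℓ : ℝ) ^ 2)⁻¹ := by positivity
  have hc1 : ((ℓ : ℝ) ^ 2)⁻¹ ≤ 1 := inv_pow_le 2
  rw [← (Commute.all X Y).geom_sum₂_mul ℓ, norm_mul]
  congr 1
  have h1 : ‖(∑ i ∈ Finset.range ℓ, X ^ i * Y ^ (ℓ - 1 - i)) - (ℓ : Om ℓ)‖ ≤ ((ℓ : ℝ) ^ 2)⁻¹ := by
    have h2 : (∑ i ∈ Finset.range ℓ, X ^ i * Y ^ (ℓ - 1 - i)) - (ℓ : Om ℓ) =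
        ∑ i ∈ Finset.range ℓ, (X ^ i * Y ^ (ℓ - 1 - i) - 1) := by
      rw [Finset.sum_sub_distrib, Finset.sum_const, Finset.card_range, nsmul_eq_mul, mul_one]
    rw [h2]
    refine IsUltrametricDist.norm_sum_le_of_forall_le_of_nonneg hc0 fun i _ => ?_
    exact mul_near _ _ _ hc0 hc1 (pow_near X _ hc0 hc1 hX i) (pow_near Y _ hc0 hc1 hY _)
  have h3 : ((ℓ : ℝ) ^ 2)⁻¹ < (ℓ : ℝ)⁻¹ := by
    rw [inv_lt_inv₀ (by positivity) (by positivity)]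
    nlinarith
  have h4 : ‖(∑ i ∈ Finset.range ℓ, X ^ i * Y ^ (ℓ - 1 - i)) + -(ℓ : Om ℓ)‖ <
      max ‖∑ i ∈ Finset.range ℓ, X ^ i * Y ^ (ℓ - 1 - i)‖ ‖-(ℓ : Om ℓ)‖ := by
    rw [← sub_eq_add_neg, norm_neg, norm_ell]
    exact (h1.trans_lt h3).trans_le (le_max_right _ _)
  rw [IsUltrametricDist.norm_eq_of_add_norm_lt_max h4, norm_neg, norm_ell]

theorem pow_pow_sub (X Y : Om ℓ) (hX : ‖X - 1‖ ≤ ((ℓ : ℝ) ^ 2)⁻¹)
    (hY : ‖Y - 1‖ ≤ ((ℓ : ℝ) ^ 2)⁻¹) (j : ℕ) :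
    ‖X ^ (ℓ ^ j) - Y ^ (ℓ ^ j)‖ = ((ℓ : ℝ) ^ j)⁻¹ * ‖X - Y‖ := by
  have hc0 : (0 : ℝ) ≤ ((ℓ : ℝ) ^ 2)⁻¹ := by positivity
  have hc1 : ((ℓ : ℝ) ^ 2)⁻¹ ≤ 1 := inv_pow_le 2
  induction j with
  | zero => simp
  | succ j ih =>
    rw [pow_succ, pow_mul, pow_mul, pow_sub _ _ (pow_near X _ hc0 hc1 hX _)
      (pow_near Y _ hc0 hc1 hY _), ih, pow_succ, mul_inv]
    ring

/-- the polynomials giving the approximations of the logarithm -/
noncomputable def Pj (ℓ m j : ℕ) [Fact ℓ.Prime] : ℚ_[ℓ][X] :=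
  C (((ℓ : ℚ_[ℓ]) ^ (j + 2))⁻¹) * (X ^ (m * ℓ ^ j) - 1)

theorem Aj_eq (g : Mt ℓ N) (m j : ℕ) : Aj (g ^ m) j = aeval g (Pj ℓ m j) := by
  unfold Aj Pj
  rw [map_mul, aeval_C, map_sub, map_pow, aeval_X, map_one, ← pow_mul, ← Algebra.smul_def]

/-- a continuous functional -/
noncomputable def Lf (v : Fin N → Om ℓ) (i : Fin N) (A : Matrix (Fin N) (Fin N) ℚ_[ℓ]) : Om ℓ :=
  ∑ k, algebraMap ℚ_[ℓ] (Om ℓ) (A i k) * v k

theorem Lf_eq (v : Fin N → Om ℓ) (i : Fin N) (A : Matrix (Fin N) (Fin N) ℚ_[ℓ]) (y : Om ℓ)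
    (h : ext A *ᵥ v = y • v) : Lf v i A = y * v i := by
  have h1 := congrFun h i
  rw [Pi.smul_apply, smul_eq_mul] at h1
  rw [← h1]
  rfl

theorem Lf_cont (v : Fin N → Om ℓ) (i : Fin N) : Continuous (Lf v i) := by
  unfold Lf
  refine continuous_finsetSum _ fun k _ => ?_
  have h1 : Continuous fun A : Matrix (Fin N) (Fin N) ℚ_[ℓ] =>
      algebraMap ℚ_[ℓ] (Om ℓ) (A i k) :=
    (continuous_algebraMap ℚ_[ℓ] (Om ℓ)).comp (continuous_id.matrix_elem i k)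
  exact h1.mul continuous_const

end

theorem t : S_LOGR := by
  classical
  intro ℓ _ N G _ _ _ _ ρ hρ σ hsep hdist
  obtain ⟨⟨U, hU, hnear⟩, hpow⟩ := pow ℓ N G ρ hρ
  obtain ⟨m, hm, hmU⟩ := hpow U hU σ
  have hn : Near ℓ (ρ (σ ^ m)) := hnear _ hmU
  obtain ⟨g, hg⟩ : ∃ g, g = ρ σ := ⟨_, rfl⟩
  have hgm : ρ (σ ^ m) = g ^ m := by rw [map_pow, hg]
  rw [hgm] at hn
  rw [← hg] at hsep hdist ⊢
  let _ : NormedAddCommGroup (Mt ℓ N) := Matrix.normedAddCommGroup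
  let _ : NormedSpace ℚ_[ℓ] (Mt ℓ N) := Matrix.normedSpace
  have h0 : ‖Aj (g ^ m) 0‖ ≤ 1 := aj_zero (g ^ m) (by rw [mul_one]; exact (near_iff _).1 hn)
  obtain ⟨T, hT⟩ := exists_lim (g ^ m) h0
  have htan : IsTangent ℓ ρ T := aj_tangent ρ (σ ^ m) T (by rw [hgm]; exact hT)
  -- `T` is a polynomial in `g`
  obtain ⟨f, hf⟩ : ∃ f : ℚ_[ℓ][X], aeval g f = T := by
    have hcl : IsClosed ((Subalgebra.toSubmodule (Algebra.adjoin ℚ_[ℓ] {g}) :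
        Submodule ℚ_[ℓ] (Mt ℓ N)) : Set (Mt ℓ N)) :=
      Submodule.closed_of_finiteDimensional _
    have hmem : T ∈ Subalgebra.toSubmodule (Algebra.adjoin ℚ_[ℓ] {g}) := by
      refine hcl.mem_of_tendsto hT (Eventually.of_forall fun j => ?_)
      rw [Aj_eq]
      show aeval g (Pj ℓ m j) ∈ Algebra.adjoin ℚ_[ℓ] {g}
      rw [Algebra.adjoin_singleton_eq_range_aeval]
      exact ⟨_, rfl⟩
    have hmem' : T ∈ Algebra.adjoin ℚ_[ℓ] {g} := hmem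
    rw [Algebra.adjoin_singleton_eq_range_aeval] at hmem'
    exact hmem'
  -- the roots are mapped to roots
  have hroot : ∀ r : Om ℓ, aeval r g.charpoly = 0 → aeval (aeval r f) T.charpoly = 0 := by
    intro r hr
    obtain ⟨v, hv, hrv⟩ := (root_iff g r).1 hr
    rw [root_iff]
    exact ⟨v, hv, by rw [← hf]; exact eig_ext g v r hrv f⟩
  -- the approximations converge
  have hconv : ∀ r : Om ℓ, aeval r g.charpoly = 0 →
      Tendsto (fun j => aeval r (Pj ℓ m j)) atTop (𝓝 (aeval r f)) := by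
    intro r hr
    obtain ⟨v, hv, hrv⟩ := (root_iff g r).1 hr
    obtain ⟨i, hi⟩ := Function.ne_iff.1 hv
    have h1 : Tendsto (fun j => Lf v i (Aj (g ^ m) j)) atTop (𝓝 (Lf v i T)) :=
      ((Lf_cont v i).tendsto T).comp hT
    rw [← hf, Lf_eq v i _ _ (eig_ext g v r hrv f)] at h1
    have h2 : (fun j => Lf v i (Aj (g ^ m) j)) = fun j => aeval r (Pj ℓ m j) * v i := by
      funext j
      rw [Aj_eq, Lf_eq v i _ _ (eig_ext g v r hrv _)]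
    rw [h2] at h1
    have h3 := h1.mul_const (v i)⁻¹
    have hvi : v i ≠ 0 := hi
    simp only [mul_assoc, mul_inv_cancel₀ hvi, mul_one] at h3
    exact h3
  -- powers of the roots are near one
  have hone : ∀ r : Om ℓ, aeval r g.charpoly = 0 → ‖r ^ m - 1‖ ≤ ((ℓ : ℝ) ^ 2)⁻¹ := by
    intro r hr
    obtain ⟨v, hv, hrv⟩ := (root_iff g r).1 hr
    have h1 := eig_ext g v r hrv (X ^ m - 1)
    simp only [map_sub, map_pow, aeval_X, map_one] at h1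
    exact eig_le _ v _ hv h1 _ (by positivity) hn
  have hinj : ∀ r s : Om ℓ, aeval r g.charpoly = 0 → aeval s g.charpoly = 0 →
      aeval r f = aeval s f → r = s := by
    intro r s hr hs hrs
    refine hdist m r s hm hr hs ?_
    have h1 := ((hconv r hr).sub (hconv s hs)).norm
    rw [hrs, sub_self, norm_zero] at h1
    have h2 : (fun j => ‖aeval r (Pj ℓ m j) - aeval s (Pj ℓ m j)‖) =
        fun _ => (ℓ : ℝ) ^ 2 * ‖r ^ m - s ^ m‖ := by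
      funext j
      have hl0 : (ℓ : ℝ) ≠ 0 := by exact_mod_cast (Fact.out : ℓ.Prime).ne_zero
      have h3 : aeval r (Pj ℓ m j) - aeval s (Pj ℓ m j) =
          algebraMap ℚ_[ℓ] (Om ℓ) (((ℓ : ℚ_[ℓ]) ^ (j + 2))⁻¹) *
            ((r ^ m) ^ (ℓ ^ j) - (s ^ m) ^ (ℓ ^ j)) := by
        unfold Pj
        simp only [map_mul, aeval_C, map_sub, map_pow, aeval_X, map_one, pow_mul]
        ring
      rw [h3, norm_mul, norm_alg, norm_inv, norm_l_pow, inv_inv,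
        pow_pow_sub _ _ (hone r hr) (hone s hs)]
      field_simp
      ring
    rw [h2] at h1
    have h4 := tendsto_nhds_unique h1 tendsto_const_nhds
    have hl2 : (ℓ : ℝ) ^ 2 ≠ 0 := by
      have hl0 : (ℓ : ℝ) ≠ 0 := by exact_mod_cast (Fact.out : ℓ.Prime).ne_zero
      positivity
    have h5 := (mul_eq_zero.1 h4.symm).resolve_left hl2
    exact sub_eq_zero.1 (norm_eq_zero.1 h5)
  -- cardinalities
  have hgne : g.charpoly ≠ 0 := g.charpoly_monic.ne_zero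
  have hTne : T.charpoly ≠ 0 := T.charpoly_monic.ne_zero
  have hcardg : (g.charpoly.rootSet (Om ℓ)).ncard = N := by
    rw [← Nat.card_coe_set_eq, Nat.card_eq_fintype_card, card_rootSet_eq_natDegree hsep
      (IsAlgClosed.splits _), Matrix.charpoly_natDegree_eq_dim, Fintype.card_fin]
  have hdegT : T.charpoly.natDegree = N := by
    rw [Matrix.charpoly_natDegree_eq_dim, Fintype.card_fin]
  have hcardT : (T.charpoly.rootSet (Om ℓ)).ncard ≤ N :=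
    (Polynomial.ncard_rootSet_le _ _).trans hdegT.le
  have himg : (fun r : Om ℓ => aeval r f) '' g.charpoly.rootSet (Om ℓ) ⊆
      T.charpoly.rootSet (Om ℓ) := by
    rintro _ ⟨r, hr, rfl⟩
    rw [mem_rootSet] at hr ⊢
    exact ⟨hTne, hroot r hr.2⟩
  have himgcard : ((fun r : Om ℓ => aeval r f) '' g.charpoly.rootSet (Om ℓ)).ncard = N := by
    rw [Set.InjOn.ncard_image, hcardg]
    intro r hr s hs hrs
    exact hinj r s (mem_rootSet.1 hr).2 (mem_rootSet.1 hs).2 hrs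
  have hfin : (T.charpoly.rootSet (Om ℓ)).Finite := Polynomial.rootSet_finite _ _
  have heq : (fun r : Om ℓ => aeval r f) '' g.charpoly.rootSet (Om ℓ) =
      T.charpoly.rootSet (Om ℓ) :=
    Set.eq_of_subset_of_ncard_le himg (by rw [himgcard]; exact hcardT) hfin
  refine ⟨T, htan, ?_, fun r => aeval r f, hroot, hinj, ?_, ?_⟩
  · rw [← card_rootSet_eq_natDegree_iff_of_splits (K := Om ℓ) hTne (IsAlgClosed.splits _), hdegT,
      ← Nat.card_eq_fintype_card, Nat.card_coe_set_eq, ← heq, himgcard]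
  · intro x hx
    have hx' : x ∈ T.charpoly.rootSet (Om ℓ) := mem_rootSet.2 ⟨hTne, hx⟩
    rw [← heq] at hx'
    obtain ⟨r, hr, hrx⟩ := hx'
    exact ⟨r, (mem_rootSet.1 hr).2, hrx⟩
  · intro τ r _
    exact Polynomial.aeval_algHom_apply (τ : Om ℓ →ₐ[ℚ_[ℓ]] Om ℓ) r f

end Pool.Agent.Y936.SS
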